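import Pool.Agent.H71.SG.Defs

/-! The valid codes form a Borel set. -/

set_option autoImplicit false

open Set

namespace Pool.Agent.SG

section sv

variable {Z : Type} [MeasurableSpace Z]

/-- Borel predicates -/
private def Mb (p : Z → Prop) : Prop := MeasurableSet {z | p z}

private theorem Mb.and {p q : Z → Prop} (hp : Mb p) (hq : Mb q) : Mb fun z => p z ∧ q z :=
  MeasurableSet.inter hp hq

private theorem Mb.or {p q : Z → Prop} (hp : Mb p) (hq : Mb q) : Mb fun z => p z ∨ q z :=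
  MeasurableSet.union hp hq

private theorem Mb.not {p : Z → Prop} (hp : Mb p) : Mb fun z => ¬ p z :=
  MeasurableSet.compl hp

private theorem Mb.imp {p q : Z → Prop} (hp : Mb p) (hq : Mb q) : Mb fun z => p z → q z := by
  have := hp.not.or hq
  unfold Mb at *
  convert this using 2
  ext z
  simp only [imp_iff_not_or]

private theorem Mb.iff {p q : Z → Prop} (hp : Mb p) (hq : Mb q) : Mb fun z => (p z ↔ q z) := by
  have := (hp.imp hq).and (hq.imp hp)
  unfold Mb at *
  convert this using 2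
  ext z
  exact iff_iff_implies_and_implies

private theorem Mb.all {ι : Type} [Countable ι] {p : ι → Z → Prop} (hp : ∀ i, Mb (p i)) :
    Mb fun z => ∀ i, p i z := by
  unfold Mb
  rw [setOf_forall]
  exact MeasurableSet.iInter hp

private theorem Mb.ex {ι : Type} [Countable ι] {p : ι → Z → Prop} (hp : ∀ i, Mb (p i)) :
    Mb fun z => ∃ i, p i z := by
  unfold Mb
  rw [setOf_exists]
  exact MeasurableSet.iUnion hp

private theorem Mb.const (p : Prop) : Mb fun _ : Z => p := MeasurableSet.const p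

private theorem Mb.congr {p q : Z → Prop} (hp : Mb p) (h : ∀ z, q z ↔ p z) : Mb q := by
  have : q = p := funext fun z => propext (h z)
  rw [this]
  exact hp

private theorem Mb.inf {p : ℕ → Z → Prop} (hp : ∀ i, Mb (p i)) :
    Mb fun z => {v | p v z}.Infinite := by
  refine (Mb.all fun n : ℕ => Mb.ex fun v : ℕ => (Mb.const (n < v)).and (hp v)).congr ?_
  intro z
  constructor
  · intro h n
    obtain ⟨v, hv, hn⟩ := h.exists_gt n
    exact ⟨v, hn, hv⟩
  · intro h
    refine Set.infinite_of_forall_exists_gt fun n => ?_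
    obtain ⟨v, hn, hv⟩ := h n
    exact ⟨v, hv, hn⟩

end sv

theorem pf_SV (D : Type) [MeasurableSpace D] [StandardBorelSpace D] : T_SV D := by
  classical
  intro o
  have hs : MeasurableSet ({o} : Set D) := measurableSet_singleton o
  have m2 : ∀ v, Measurable fun z : Bst D => z.2 v := fun v =>
    (measurable_pi_apply v).comp measurable_snd
  have m1 : ∀ v w, Measurable fun z : Bst D => z.1 v w := fun v w =>
    (measurable_pi_apply w).comp ((measurable_pi_apply v).comp measurable_fst)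
  have a1 : ∀ v n, Mb fun z : Bst D => z.2 v = (n, o) := fun v n =>
    m2 v (measurableSet_singleton (n, o))
  have a2 : ∀ v (S : Set ℕ), Mb fun z : Bst D => (z.2 v).1 ∈ S := fun v S =>
    (measurable_fst.comp (m2 v)) (MeasurableSet.of_discrete (s := S))
  have a3 : ∀ v, Mb fun z : Bst D => (z.2 v).2 ≠ o := fun v =>
    (measurable_snd.comp (m2 v)) hs.compl
  have a4 : ∀ v w (e : Fin 3), Mb fun z : Bst D => z.1 v w = e := fun v w e =>
    m1 v w (measurableSet_singleton e)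
  have b2 : ∀ v n, Mb fun z : Bst D => (z.2 v).1 = n := fun v n => a2 v {n}
  have b3 : ∀ v, Mb fun z : Bst D => 3 ≤ (z.2 v).1 := fun v => a2 v {n | 3 ≤ n}
  have b4 : ∀ v w, Mb fun z : Bst D => (z.2 v).1 = (z.2 w).1 := by
    intro v w
    exact measurableSet_eq_fun (measurable_fst.comp (m2 v)) (measurable_fst.comp (m2 w))
  have pa : ∀ v p a, Mb fun z : Bst D => Pa z v p a := fun v p a =>
    Mb.ex fun w => (a4 v w 1).and ((b2 w (p + 3)).and (a4 w a 2))
  have c1 : Mb fun z : Bst D => {v | z.2 v = (0, o)}.Infinite := Mb.inf fun v => a1 v 0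
  have c2 : Mb fun z : Bst D => {v | z.2 v = (1, o)}.Infinite := Mb.inf fun v => a1 v 1
  have c3 : Mb fun z : Bst D => ∀ v, (z.2 v).1 = 2 ↔ (z.2 v).2 ≠ o :=
    Mb.all fun v => (b2 v 2).iff (a3 v)
  have c4 : Mb fun z : Bst D => ∀ v w, z.1 v w = 1 → (z.2 v).1 = 2 ∧ 3 ≤ (z.2 w).1 :=
    Mb.all fun v => Mb.all fun w => (a4 v w 1).imp ((b2 v 2).and (b3 w))
  have c5 : Mb fun z : Bst D => ∀ v w, z.1 v w = 2 → 3 ≤ (z.2 v).1 ∧ (z.2 w).1 = 0 :=
    Mb.all fun v => Mb.all fun w => (a4 v w 2).imp ((b3 v).and (b2 w 0))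
  have c6 : Mb fun z : Bst D => ∀ w, 3 ≤ (z.2 w).1 → ∃ v, z.1 v w = 1 :=
    Mb.all fun w => (b3 w).imp (Mb.ex fun v => a4 v w 1)
  have c7 : Mb fun z : Bst D => ∀ v v' w, z.1 v w = 1 → z.1 v' w = 1 → v = v' :=
    Mb.all fun v => Mb.all fun v' => Mb.all fun w =>
      (a4 v w 1).imp ((a4 v' w 1).imp (Mb.const _))
  have c8 : Mb fun z : Bst D => ∀ w, 3 ≤ (z.2 w).1 → ∃ a, z.1 w a = 2 :=
    Mb.all fun w => (b3 w).imp (Mb.ex fun a => a4 w a 2)
  have c9 : Mb fun z : Bst D => ∀ w a a', z.1 w a = 2 → z.1 w a' = 2 → a = a' :=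
    Mb.all fun w => Mb.all fun a => Mb.all fun a' =>
      (a4 w a 2).imp ((a4 w a' 2).imp (Mb.const _))
  have c10 : Mb fun z : Bst D => ∀ v, (z.2 v).1 = 2 →
      ∃ k, ∀ p, (∃ w, z.1 v w = 1 ∧ (z.2 w).1 = p + 3) ↔ p < k :=
    Mb.all fun v => (b2 v 2).imp (Mb.ex fun k => Mb.all fun p =>
      (Mb.ex fun w => (a4 v w 1).and (b2 w (p + 3))).iff (Mb.const _))
  have c11 : Mb fun z : Bst D => ∀ v w w', z.1 v w = 1 → z.1 v w' = 1 →
      (z.2 w).1 = (z.2 w').1 → w = w' :=
    Mb.all fun v => Mb.all fun w => Mb.all fun w' =>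
      (a4 v w 1).imp ((a4 v w' 1).imp ((b4 w w').imp (Mb.const _)))
  have c12 : Mb fun z : Bst D => ∀ v v', (z.2 v).1 = 2 → (z.2 v').1 = 2 →
      (∀ p a, Pa z v p a ↔ Pa z v' p a) → v = v' :=
    Mb.all fun v => Mb.all fun v' => (b2 v 2).imp ((b2 v' 2).imp
      ((Mb.all fun p => Mb.all fun a => (pa v p a).iff (pa v' p a)).imp (Mb.const _)))
  refine (c1.and (c2.and (c3.and (c4.and (c5.and (c6.and (c7.and (c8.and (c9.and
    (c10.and (c11.and c12))))))))))).congr fun z => ?_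
  constructor
  · intro h
    exact ⟨h.orig, h.dum, h.col, h.r1, h.r2, h.ex1, h.un1, h.ex2, h.un2, h.len, h.un3, h.ext⟩
  · rintro ⟨h1, h2, h3, h4, h5, h6, h7, h8, h9, h10, h11, h12⟩
    exact ⟨h1, h2, h3, h4, h5, h6, h7, h8, h9, h10, h11, h12⟩

end Pool.Agent.SG
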